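import Mathlib
import Pool.Agent.H577R3.Lang
import Pool.Agent.H577R3.RM.Stmts

set_option autoImplicit false

/-! Definability of the subgroups of finite index that contain the commutator subgroup. -/

namespace Pool.Agent.H577R3.RM.FI

open Pool.Agent.Helper967.ArithDef Pool.Agent.Helper967.ModelDef Pool.Agent.H577R3
open scoped commutatorElement

attribute [local instance] strG

section Alg

variable {G Q : Type} [Group G] [Group Q]

/-- products of commutators `[y, a]`, `y` in `A`, with `a` running over the list -/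
def PS (A : Subgroup G) : List G → Set G
  | [] => {1}
  | a :: L => {g | ∃ y ∈ A, ∃ h ∈ PS A L, g = ⁅y, a⁆ * h}

theorem PS_mono {A B : Subgroup G} (h : A ≤ B) : ∀ L : List G, PS A L ⊆ PS B L
  | [] => fun _ hg => hg
  | _ :: L => by
    rintro g ⟨y, hy, k, hk, rfl⟩
    exact ⟨y, h hy, k, PS_mono h L hk, rfl⟩

theorem PS_append {A : Subgroup G} : ∀ (L L' : List G) {g h : G}, g ∈ PS A L → h ∈ PS A L' →
    g * h ∈ PS A (L ++ L')
  | [], L', g, h => by
    intro hg hh
    have : g = 1 := hg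
    subst this
    simpa using hh
  | a :: L, L', g, h => by
    rintro ⟨y, hy, k, hk, rfl⟩ hh
    exact ⟨y, hy, k * h, PS_append L L' hk hh, by rw [mul_assoc]⟩

theorem PS_comm {A : Subgroup G} : ∀ (L : List G) {g : G}, g ∈ PS A L → g ∈ commutator G
  | [], g => by
    intro hg
    have : g = 1 := hg
    subst this
    exact one_mem _
  | a :: L, g => by
    rintro ⟨y, hy, k, hk, rfl⟩
    exact mul_mem (Subgroup.commutator_mem_commutator (Subgroup.mem_top _) (Subgroup.mem_top _))
      (PS_comm L hk)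

theorem PS_one {A : Subgroup G} : ∀ (L : List G), (1 : G) ∈ PS A L
  | [] => rfl
  | a :: L => ⟨1, one_mem _, 1, PS_one L, by simp⟩

theorem PS_gen {A : Subgroup G} : ∀ (L : List G) {a y : G}, a ∈ L → y ∈ A → ⁅y, a⁆ ∈ PS A L
  | [], a, y => by simp
  | b :: L, a, y => by
    intro ha hy
    rcases List.mem_cons.1 ha with rfl | ha
    · exact ⟨y, hy, 1, PS_one L, by simp⟩
    · exact ⟨1, one_mem _, ⁅y, a⁆, PS_gen L ha hy, by simp⟩

theorem comm_mul (x x' a : G) : ⁅x * x', a⁆ = x * ⁅x', a⁆ * x⁻¹ * ⁅x, a⁆ := by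
  simp only [commutatorElement_def]
  group

variable (φ : G →* Q) (A : Subgroup G)

/-- elements of the commutator subgroup commute with `A`, in the image -/
def CC : Prop := ∀ k ∈ commutator G, ∀ z ∈ A, φ k * φ z = φ z * φ k

variable {φ A}

theorem mem_com (x a : G) : ⁅x, a⁆ ∈ commutator G :=
  Subgroup.commutator_mem_commutator (Subgroup.mem_top _) (Subgroup.mem_top _)

theorem hom_mul (h : CC φ A) (hA : commutator G ≤ A) {x x' : G} (hx : x ∈ A) (a : G) :
    φ ⁅x * x', a⁆ = φ ⁅x, a⁆ * φ ⁅x', a⁆ := by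
  rw [comm_mul, map_mul, map_mul, map_mul, ← h _ (mem_com x' a) _ hx, mul_assoc (φ ⁅x', a⁆),
    ← map_mul, mul_inv_cancel, map_one, mul_one, h _ (mem_com x' a) _ (hA (mem_com x a))]

theorem hom_inv (h : CC φ A) (hA : commutator G ≤ A) {x : G} (hx : x ∈ A) (a : G) :
    φ ⁅x⁻¹, a⁆ = (φ ⁅x, a⁆)⁻¹ := by
  have h1 := hom_mul h hA (x' := x⁻¹) hx a
  rw [mul_inv_cancel, commutatorElement_one_left, map_one] at h1
  exact (inv_eq_of_mul_eq_one_right h1.symm).symm

theorem im_mul (h : CC φ A) (hA : commutator G ≤ A) : ∀ (L : List G) {g g' : G}, g ∈ PS A L →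
    g' ∈ PS A L → ∃ g'' ∈ PS A L, φ g'' = φ g * φ g'
  | [], g, g' => by
    intro hg hg'
    have h1 : g = 1 := hg
    have h2 : g' = 1 := hg'
    subst h1 h2
    exact ⟨1, rfl, by simp⟩
  | a :: L, g, g' => by
    rintro ⟨y, hy, k, hk, rfl⟩ ⟨y', hy', k', hk', rfl⟩
    obtain ⟨k'', h1, h2⟩ := im_mul h hA L hk hk'
    refine ⟨⁅y * y', a⁆ * k'', ⟨y * y', mul_mem hy hy', k'', h1, rfl⟩, ?_⟩
    rw [map_mul, hom_mul h hA hy, h2, map_mul, map_mul]
    have h3 : φ k * φ ⁅y', a⁆ = φ ⁅y', a⁆ * φ k := h _ (PS_comm L hk) _ (hA (mem_com y' a))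
    calc φ ⁅y, a⁆ * φ ⁅y', a⁆ * (φ k * φ k') = φ ⁅y, a⁆ * (φ ⁅y', a⁆ * φ k) * φ k' := by
          simp only [mul_assoc]
      _ = φ ⁅y, a⁆ * (φ k * φ ⁅y', a⁆) * φ k' := by rw [h3]
      _ = _ := by simp only [mul_assoc]

theorem im_inv (h : CC φ A) (hA : commutator G ≤ A) : ∀ (L : List G) {g : G}, g ∈ PS A L →
    ∃ g'' ∈ PS A L, φ g'' = (φ g)⁻¹
  | [], g => by
    intro hg
    have h1 : g = 1 := hg
    subst h1
    exact ⟨1, rfl, by simp⟩
  | a :: L, g => by
    rintro ⟨y, hy, k, hk, rfl⟩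
    obtain ⟨k'', h1, h2⟩ := im_inv h hA L hk
    refine ⟨⁅y⁻¹, a⁆ * k'', ⟨y⁻¹, inv_mem hy, k'', h1, rfl⟩, ?_⟩
    rw [map_mul, hom_inv h hA hy, h2, map_mul, mul_inv_rev]
    have h3 : φ k * φ ⁅y, a⁆ = φ ⁅y, a⁆ * φ k := h _ (PS_comm L hk) _ (hA (mem_com y a))
    rw [← mul_inv_rev, ← mul_inv_rev, h3]

/-- the image as a subgroup -/
def SG (h : CC φ A) (hA : commutator G ≤ A) (L : List G) : Subgroup Q where
  carrier := φ '' PS A L
  mul_mem' := by
    rintro _ _ ⟨g, hg, rfl⟩ ⟨g', hg', rfl⟩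
    exact im_mul h hA L hg hg'
  one_mem' := ⟨1, PS_one L, map_one φ⟩
  inv_mem' := by
    rintro _ ⟨g, hg, rfl⟩
    exact im_inv h hA L hg

/-- bounded width of the commutator subgroup of a finitely generated metabelian group -/
theorem width (hm : derivedSeries G 2 = ⊥) (L : List G)
    (hL : Subgroup.closure {a | a ∈ L} = ⊤) {w : G} (hw : w ∈ commutator G) :
    w ∈ PS (⊤ : Subgroup G) (L ++ L) := by
  have hab : ∀ k ∈ commutator G, ∀ z ∈ commutator G, k * z = z * k := by
    intro k hk z hz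
    have h1 : ⁅k, z⁆ ∈ derivedSeries G 2 := by
      rw [derivedSeries_succ]
      refine Subgroup.commutator_mem_commutator ?_ ?_ <;> rw [derivedSeries_one] <;> assumption
    rw [hm, Subgroup.mem_bot] at h1
    exact commutatorElement_eq_one_iff_mul_comm.1 h1
  have hK : CC (MonoidHom.id G) (commutator G) := fun k hk z hz => hab k hk z hz
  set D : Subgroup G := SG hK le_rfl L with hD
  have hDmem : ∀ g, g ∈ D ↔ g ∈ PS (commutator G) L := by
    intro g
    constructor
    · rintro ⟨g', h1, rfl⟩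
      exact h1
    · intro h1
      exact ⟨g, h1, rfl⟩
  have hgen : ∀ a ∈ L, ∀ y ∈ commutator G, ⁅y, a⁆ ∈ D := fun a ha y hy =>
    (hDmem _).2 (PS_gen L ha hy)
  have hDK : ∀ d ∈ D, d ∈ commutator G := fun d hd => PS_comm L ((hDmem d).1 hd)
  have hn1 : ∀ a ∈ L, ∀ d ∈ D, a * d * a⁻¹ ∈ D := by
    intro a ha d hd
    have h1 : a * d * a⁻¹ = (⁅d, a⁆)⁻¹ * d := by
      simp only [commutatorElement_def]
      group
    rw [h1]
    exact mul_mem (inv_mem (hgen a ha d (hDK d hd))) hd
  have hn2 : ∀ a ∈ L, ∀ d ∈ D, a⁻¹ * d * a ∈ D := by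
    intro a ha d hd
    have h1 : a⁻¹ * d * a = ⁅a⁻¹ * d * a, a⁆ * d := by
      simp only [commutatorElement_def]
      group
    have h2 : a⁻¹ * d * a ∈ commutator G := by
      have := (inferInstance : (commutator G).Normal).conj_mem d (hDK d hd) a⁻¹
      simpa using this
    rw [h1]
    exact mul_mem (hgen a ha _ h2) hd
  have hDn : D.Normal := by
    rw [← Subgroup.normalizer_eq_top_iff, eq_top_iff, ← hL, Subgroup.closure_le]
    intro a ha
    rw [SetLike.mem_coe, Subgroup.mem_normalizer_iff]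
    intro h
    constructor
    · exact hn1 a ha h
    · intro h1
      have := hn2 a ha _ h1
      simpa [mul_assoc] using this
  have hcen : ∀ y ∈ commutator G, QuotientGroup.mk' D y ∈ Subgroup.center (G ⧸ D) := by
    intro y hy
    have h1 : (⊤ : Subgroup G) ≤ (Subgroup.centralizer {QuotientGroup.mk' D y}).comap
        (QuotientGroup.mk' D) := by
      rw [← hL, Subgroup.closure_le]
      intro a ha
      rw [SetLike.mem_coe, Subgroup.mem_comap, Subgroup.mem_centralizer_iff]
      intro z hz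
      rw [Set.mem_singleton_iff] at hz
      subst hz
      have h2 : QuotientGroup.mk' D ⁅y, a⁆ = 1 := by
        rw [← MonoidHom.mem_ker, QuotientGroup.ker_mk']
        exact hgen a ha y hy
      rw [map_commutatorElement] at h2
      exact commutatorElement_eq_one_iff_mul_comm.1 h2
    rw [Subgroup.mem_center_iff]
    intro q
    obtain ⟨g, rfl⟩ := QuotientGroup.mk'_surjective D q
    have h3 := h1 (Subgroup.mem_top g)
    rw [Subgroup.mem_comap, Subgroup.mem_centralizer_iff] at h3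
    exact (h3 _ rfl).symm
  have hT : CC (QuotientGroup.mk' D) (⊤ : Subgroup G) := by
    intro k hk z _
    exact ((Subgroup.mem_center_iff.1 (hcen k hk)) _).symm
  set V : Subgroup (G ⧸ D) := SG hT le_top L with hV
  have hVc : V ≤ Subgroup.center (G ⧸ D) := by
    rintro _ ⟨g, hg, rfl⟩
    exact hcen g (PS_comm L hg)
  have hVn : V.Normal := by
    constructor
    intro v hv g
    have h1 := Subgroup.mem_center_iff.1 (hVc hv) g
    rw [h1, mul_assoc, mul_inv_cancel, mul_one]
    exact hv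
  set W : Subgroup G := V.comap (QuotientGroup.mk' D) with hW
  have hWn : W.Normal := hVn.comap _
  have hWg : ∀ a ∈ L, ∀ x : G, ⁅x, a⁆ ∈ W := fun a ha x =>
    ⟨⁅x, a⁆, PS_gen L ha (Subgroup.mem_top x), rfl⟩
  have hWc : commutator G ≤ W := by
    have h1 : (⊤ : Subgroup G) ≤ (Subgroup.center (G ⧸ W)).comap (QuotientGroup.mk' W) := by
      rw [← hL, Subgroup.closure_le]
      intro a ha
      rw [SetLike.mem_coe, Subgroup.mem_comap, Subgroup.mem_center_iff]
      intro q
      obtain ⟨x, rfl⟩ := QuotientGroup.mk'_surjective W q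
      have h2 : QuotientGroup.mk' W ⁅x, a⁆ = 1 := by
        rw [← MonoidHom.mem_ker, QuotientGroup.ker_mk']
        exact hWg a ha x
      rw [map_commutatorElement] at h2
      exact commutatorElement_eq_one_iff_mul_comm.1 h2
    rw [commutator_def, Subgroup.commutator_le]
    intro x _ y _
    have h3 := h1 (Subgroup.mem_top y)
    rw [Subgroup.mem_comap, Subgroup.mem_center_iff] at h3
    have h4 := h3 (QuotientGroup.mk' W x)
    rw [← QuotientGroup.ker_mk' W, MonoidHom.mem_ker, map_commutatorElement]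
    exact commutatorElement_eq_one_iff_mul_comm.2 h4
  obtain ⟨g, hg, h5⟩ := hWc hw
  have h6 : g⁻¹ * w ∈ D := by
    rw [← QuotientGroup.ker_mk' D, MonoidHom.mem_ker, map_mul, map_inv, h5]
    simp
  have h7 := PS_append L L hg (PS_mono le_top L ((hDmem _).1 h6))
  simpa using h7

end Alg

section Def

variable {G : Type} [Group G] {P : Type} {x : P → G}

theorem reindex {P' : Type} (e : P ≃ P') {R : (ℕ → G) → Prop} (h : Dg x R) :
    Dg (fun p' => x (e.symm p')) R := by
  induction h with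
  | mul => exact Dg.mul
  | eq => exact Dg.eq
  | par p =>
    have h1 := Dg.par (x := fun p' => x (e.symm p')) (e p)
    simpa using h1
  | bot => exact Dg.bot
  | imp _ _ h1 h2 => exact Dg.imp h1 h2
  | all _ h1 => exact Dg.all h1
  | ren ρ _ h1 => exact Dg.ren ρ h1

theorem R1_PS : ∀ (L : List G), (∀ a ∈ L, ∃ p, x p = a) →
    R1 (sG x) (fun g => g ∈ PS (⊤ : Subgroup G) L)
  | [], _ => fun _ _ => (Dc.eq DcF.var oneG).iff fun _ => Iff.rfl
  | a :: L, h => by
    intro Γ c
    have ih := R1_PS L (fun b hb => h b (List.mem_cons_of_mem _ hb))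
    obtain ⟨p, hp⟩ := h a (by simp)
    subst hp
    have h1 : Dc x (cx c (sG x)) (fun γ => ∃ y h : G, h ∈ PS (⊤ : Subgroup G) L ∧
        γ.2 = y * x p * y⁻¹ * (x p)⁻¹ * h) := by
      refine Dc.ex (sG x) (Q := fun (γ : Γ × G) y => ∃ h : G, h ∈ PS (⊤ : Subgroup G) L ∧
        γ.2 = y * x p * y⁻¹ * (x p)⁻¹ * h) ?_
      refine Dc.ex (sG x) (Q := fun (γ : (Γ × G) × G) h => h ∈ PS (⊤ : Subgroup G) L ∧
        γ.1.2 = γ.2 * x p * γ.2⁻¹ * (x p)⁻¹ * h) ?_
      refine Dc.and (ih.app DcF.var) (Dc.eq DcF.var.wk.wk ?_)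
      exact ((((DcF.var.wk).mul (parG p)).mul (DcF.var.wk).inv).mul (parG p).inv).mul DcF.var
    refine h1.iff fun γ => ?_
    constructor
    · rintro ⟨y, h, h2, h3⟩
      exact ⟨y, Subgroup.mem_top _, h, h2, h3⟩
    · rintro ⟨y, _, h, h2, h3⟩
      exact ⟨y, h, h2, h3⟩

theorem DcF_pow {Γ : Type} {c : (ℕ → G) → Γ → Prop} {F : Γ → G} (hF : DcF c (sG x) F) :
    ∀ k : ℕ, DcF c (sG x) (fun γ => F γ ^ k)
  | 0 => oneG.iff fun _ => (pow_zero _).symm
  | k + 1 => ((DcF_pow hF k).mul hF).iff fun _ => (pow_succ _ _).symm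

theorem R1_pow {S : Set G} (hS : R1 (sG x) (fun g => g ∈ S)) (k : ℕ) :
    R1 (sG x) (fun g => ∃ z c : G, c ∈ S ∧ g = z ^ k * c) := by
  intro Γ c
  refine Dc.ex (sG x) (Q := fun (γ : Γ × G) z => ∃ c : G, c ∈ S ∧ γ.2 = z ^ k * c) ?_
  refine Dc.ex (sG x) (Q := fun (γ : (Γ × G) × G) c => c ∈ S ∧ γ.1.2 = γ.2 ^ k * c) ?_
  exact Dc.and (hS.app DcF.var) (Dc.eq DcF.var.wk.wk ((DcF_pow DcF.var.wk k).mul DcF.var))

theorem R1_union {S : Set G} (hS : R1 (sG x) (fun g => g ∈ S)) : ∀ l : List P,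
    R1 (sG x) (fun g => ∃ p ∈ l, (x p)⁻¹ * g ∈ S)
  | [] => fun _ _ => (Dc.const False).iff fun _ => by simp
  | p :: l => fun Γ c => (Dc.or (hS.app ((parG p).inv.mul DcF.var)) (R1_union hS l Γ c)).iff
      fun _ => by simp

end Def

end Pool.Agent.H577R3.RM.FI

namespace Pool.Agent.H577R3.RM

open Pool.Agent.Helper967.ArithDef Pool.Agent.Helper967.ModelDef Pool.Agent.H577R3 FI

attribute [local instance] strG

theorem taskFI : TaskFI := by
  intro G _ hfg hm H hH hfi
  obtain ⟨S, hS, hSf⟩ := (Group.fg_iff (G := G)).1 hfg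
  set L : List G := hSf.toFinset.toList with hLdef
  have hL : Subgroup.closure {a | a ∈ L} = ⊤ := by
    have : {a | a ∈ L} = S := by
      ext a
      simp [hLdef]
    rw [this, hS]
  have hHn : H.Normal := Subgroup.Normal.of_commutator_le (G := G) hH
  set e := H.index with he
  have he0 : e ≠ 0 := hfi.index_ne_zero
  -- the subgroup of the `e`-th powers modulo the commutator subgroup
  set N' : Subgroup (Abelianization G) := (powMonoidHom e : Abelianization G →* _).range with hN'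
  have hfin : Finite (Abelianization G ⧸ N') := by
    have h1 : Group.FG (Abelianization G) := by
      unfold Abelianization
      infer_instance
    have h2 : Group.FG (Abelianization G ⧸ N') := inferInstance
    refine CommGroup.finite_of_fg_isMulTorsion _ ?_
    intro q
    obtain ⟨g, rfl⟩ := QuotientGroup.mk_surjective q
    rw [isOfFinOrder_iff_pow_eq_one]
    refine ⟨e, Nat.pos_of_ne_zero he0, ?_⟩
    rw [← QuotientGroup.mk_pow, QuotientGroup.eq_one_iff]
    exact ⟨g, rfl⟩
  set N : Subgroup G := N'.comap (Abelianization.of) with hN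
  have hmemN : ∀ g : G, g ∈ N ↔ ∃ z c : G, c ∈ PS (⊤ : Subgroup G) (L ++ L) ∧ g = z ^ e * c := by
    intro g
    constructor
    · rintro ⟨q, hq⟩
      obtain ⟨z, rfl⟩ := QuotientGroup.mk_surjective q
      refine ⟨z, (z ^ e)⁻¹ * g, width hm L hL ?_, by simp⟩
      rw [← Abelianization.ker_of, MonoidHom.mem_ker, map_mul, map_inv, map_pow, ← hq]
      exact inv_mul_cancel _
    · rintro ⟨z, c, hc, rfl⟩
      have h1 : Abelianization.of c = 1 := by
        rw [← MonoidHom.mem_ker, Abelianization.ker_of]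
        exact PS_comm _ hc
      refine ⟨Abelianization.of z, ?_⟩
      rw [map_mul, h1, mul_one, map_pow]
      rfl
  have hNH : N ≤ H := by
    intro g hg
    obtain ⟨z, c, hc, rfl⟩ := (hmemN g).1 hg
    exact mul_mem (H.pow_index_mem z) (hH (PS_comm _ hc))
  have hNfin : Finite (G ⧸ N) := by
    have h1 : N'.FiniteIndex := Subgroup.finiteIndex_of_finite_quotient
    have h2 : N.FiniteIndex := by
      constructor
      have hsurj : Function.Surjective (Abelianization.of : G →* Abelianization G) :=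
        QuotientGroup.mk_surjective
      rw [hN, Subgroup.index_comap_of_surjective _ hsurj]
      exact h1.index_ne_zero
    exact Subgroup.finite_quotient_of_finiteIndex
  have := Fintype.ofFinite (G ⧸ N)
  -- parameters
  let P := Fin L.length ⊕ (G ⧸ N)
  let x : P → G := Sum.elim (fun i => L.get i) (fun q => q.out)
  have hp : ∀ a ∈ L ++ L, ∃ p, x p = a := by
    intro a ha
    have ha' : a ∈ L := by simpa using ha
    obtain ⟨i, hi⟩ := List.get_of_mem ha'
    exact ⟨Sum.inl i, hi⟩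
  have h1 : R1 (sG x) (fun g => g ∈ PS (⊤ : Subgroup G) (L ++ L)) := R1_PS (L ++ L) hp
  have h2 : R1 (sG x) (fun g => g ∈ {g : G | ∃ z c : G, c ∈ PS (⊤ : Subgroup G) (L ++ L) ∧
      g = z ^ e * c}) := R1_pow (S := PS (⊤ : Subgroup G) (L ++ L)) h1 e
  classical
  let l : List P := ((Finset.univ : Finset (G ⧸ N)).filter (fun q => q.out ∈ H)).toList.map Sum.inr
  have h3 := R1_union h2 l
  have h4 : Dg x (fun v => v 0 ∈ H) := by
    refine (Dg.of1 h3).iff fun v => ?_
    constructor
    · rintro ⟨p, hp, h5⟩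
      simp only [l, List.mem_map, Finset.mem_toList, Finset.mem_filter, Finset.mem_univ,
        true_and] at hp
      obtain ⟨q, hq, rfl⟩ := hp
      have h6 : (q.out)⁻¹ * v 0 ∈ N := (hmemN _).2 h5
      have h7 := mul_mem hq (hNH h6)
      simpa using h7
    · intro hv
      have h6 : ((QuotientGroup.mk (v 0) : G ⧸ N).out)⁻¹ * v 0 ∈ N := by
        rw [← QuotientGroup.eq]
        exact QuotientGroup.out_eq' _
      have h7 : (QuotientGroup.mk (v 0) : G ⧸ N).out ∈ H := by
        have h8 := mul_mem hv (inv_mem (hNH h6))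
        simpa using h8
      refine ⟨Sum.inr (QuotientGroup.mk (v 0)), ?_, (hmemN _).1 h6⟩
      simp only [l, List.mem_map, Finset.mem_toList, Finset.mem_filter, Finset.mem_univ, true_and]
      exact ⟨_, h7, rfl⟩
  refine ⟨Fintype.card P, _, (reindex (Fintype.equivFin P) h4).toDf⟩

end Pool.Agent.H577R3.RM
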